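import Mathlib

/-!
# One-player percolation games: definitions (MP_5b044e_pr)
-/

open MeasureTheory ProbabilityTheory Filter Topology

namespace Pool.Agent.H142.PG

/-- total payoff collected along a list of actions, starting at the state `z`: at each stage the
payoff `g z a` at the current state is received and then the state moves by `q a` -/
def payoff {d : ℕ} {A : Type} (g : (Fin d → ℤ) → A → ℝ) (q : A → (Fin d → ℤ)) :
    (Fin d → ℤ) → List A → ℝ
  | _, [] => 0
  | z, a :: l => g z a + payoff g q (z + q a) l

/-- displacement along a list of actions -/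
def disp {d : ℕ} {A : Type} (q : A → (Fin d → ℤ)) (l : List A) : Fin d → ℤ := (l.map q).sum

/-- best total payoff over all action sequences of length `n` -/
noncomputable def V {d : ℕ} {A : Type} (g : (Fin d → ℤ) → A → ℝ) (q : A → (Fin d → ℤ)) (n : ℕ)
    (z : Fin d → ℤ) : ℝ :=
  ⨆ l : {l : List A // l.length = n}, payoff g q z l.1

/-- best total payoff over all action sequences using exactly `k * c a` times the action `a`,
for every `a` -/
noncomputable def W {d : ℕ} {A : Type} [DecidableEq A] (g : (Fin d → ℤ) → A → ℝ)
    (q : A → (Fin d → ℤ)) (c : A → ℕ) (k : ℕ) : ℝ :=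
  ⨆ l : {l : List A // ∀ a, l.count a = k * c a}, payoff g q 0 l.1

/-- an i.i.d. environment: a probability space with measure preserving shifts and bounded stationary
payoffs (for one player with action set `A`), the payoff vectors at different states being
independent -/
structure Env (d : ℕ) (A : Type) {Ω : Type} [MeasurableSpace Ω] (P : Measure Ω)
    (g : Ω → (Fin d → ℤ) → A → ℝ) (B : ℝ) : Prop where
  meas : ∀ z a, Measurable fun ω => g ω z a
  bdd : ∀ ω z a, |g ω z a| ≤ B
  indep : iIndepFun (fun (z : Fin d → ℤ) (ω : Ω) (a : A) => g ω z a) P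

/-- `τ` are measure preserving shifts for the environment `g` -/
structure Shifts (d : ℕ) (A : Type) {Ω : Type} [MeasurableSpace Ω] (P : Measure Ω)
    (g : Ω → (Fin d → ℤ) → A → ℝ) (τ : (Fin d → ℤ) → Ω → Ω) : Prop where
  mp : ∀ z, MeasurePreserving (τ z) P P
  stat : ∀ z z' a ω, g (τ z ω) z' a = g ω (z + z') a

end Pool.Agent.H142.PG
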